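import Pool.Agent.MP_cce4c9_lc.H59.GenA
import Pool.Agent.MP_cce4c9_lc.H7.BaseA

/-! The genus of a function field exists, and jets are attained in large degree. -/

namespace Pool.Agent.MP_cce4c9_lc.H59

open Pool.Agent.MP_cce4c9_lc.H87 Pool.Agent.MP_cce4c9_lc.H7

theorem gen : StmtLL → StmtDEG → StmtRI → StmtGEN := by
  intro hLL hDEG hRI k K _ _ _ _ hK
  obtain ⟨fin, step, zero, inf⟩ := hLL k K hK
  obtain ⟨⟨γ, hγ⟩, -⟩ := hRI k K hK
  exact ⟨Gen.exists_genus fin step (fins hK) (hDEG k K hK).2 zero hγ,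
    fun g hg D E hE hd a ha => Gen.jet (res hK) hg D E hE hd a ha⟩

end Pool.Agent.MP_cce4c9_lc.H59
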