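import Pool.Agent.MP_cce4c9_lc.H7.Spec

/-! Existence of the genus, and jets at finitely many places: the core lemmas. -/

set_option autoImplicit false

open WithZero Finsupp Module

namespace Pool.Agent.MP_cce4c9_lc.H59

open Pool.Agent.MP_cce4c9_lc.H87 Pool.Agent.MP_cce4c9_lc.H7

namespace Gen

variable {k K : Type} [Field k] [Field K] [Algebra k K]

theorem LL_mono {D D' : Dv k K} (h : D ≤ D') : LL D ≤ LL D' := fun _ hx v =>
  (hx v).trans (exp_le_exp.2 (h v))

theorem degree_nonneg {E : Dv k K} (hE : 0 ≤ E) : 0 ≤ E.degree := by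
  rw [Finsupp.degree_apply]
  exact Finset.sum_nonneg fun v _ => hE v

theorem nonneg_ind (P : Dv k K → Prop) (h0 : P 0)
    (hs : ∀ E v, 0 ≤ E → P E → P (E + single v 1)) (E : Dv k K) (hE : 0 ≤ E) : P E := by
  classical
  obtain ⟨n, hn⟩ := Int.eq_ofNat_of_zero_le (degree_nonneg hE)
  induction n generalizing E with
  | zero =>
    have : E = 0 := by
      ext v
      by_cases hv : v ∈ E.support
      · rw [Finsupp.degree_apply] at hn
        exact (Finset.sum_eq_zero_iff_of_nonneg fun v _ => hE v).1 hn v hv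
      · simpa using hv
    exact this ▸ h0
  | succ n ih =>
    have hne : E ≠ 0 := fun h => by
      rw [h, map_zero] at hn
      omega
    obtain ⟨v, hv⟩ : ∃ v, E v ≠ 0 := by
      by_contra hc
      push Not at hc
      exact hne (Finsupp.ext hc)
    have h1 : 0 ≤ E - single v 1 := fun w => by
      have := hE w
      simp only [Finsupp.coe_zero, Pi.zero_apply, Finsupp.coe_sub, Pi.sub_apply] at this ⊢
      by_cases hw : w = v
      · subst hw
        rw [single_eq_same]
        omega
      · rw [single_eq_of_ne hw]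
        omega
    have := hs _ v h1 (ih _ h1 (by rw [map_sub, degree_single, hn]; push_cast; ring))
    rwa [sub_add_cancel] at this

/-- The sum of the places of a finite set. -/
noncomputable def sm (S : Finset (Place k K)) : Dv k K := ∑ v ∈ S, single v (1 : ℤ)

open Classical in
theorem sm_apply (S : Finset (Place k K)) (w : Place k K) : sm S w = if w ∈ S then 1 else 0 := by
  simp [sm, Finsupp.finsetSum_apply, single_apply]

theorem sm_nonneg (S : Finset (Place k K)) : 0 ≤ sm S := fun w => by
  classical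
  simp only [Finsupp.coe_zero, Pi.zero_apply, sm_apply]
  split_ifs <;> omega

theorem sm_degree (S : Finset (Place k K)) : (sm S).degree = S.card := by
  simp [sm, map_sum, degree_single]

open Classical in
theorem sm_insert {S : Finset (Place k K)} {z : Place k K} (hz : z ∉ S) :
    sm (insert z S) = sm S + single z 1 := by
  rw [sm, Finset.sum_insert hz, add_comm, sm]

theorem rank_le_one {D : Dv k K} (h : ∀ x ∈ LL D, x ∈ Set.range (algebraMap k K)) :
    finrank k (LL D) ≤ 1 := by
  have h1 : LL D ≤ LinearMap.range (Algebra.linearMap k K) := fun x hx => h x hx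
  have := Submodule.finrank_mono h1
  have h2 := LinearMap.finrank_range_le (Algebra.linearMap k K)
  rw [finrank_self] at h2
  omega

theorem one_le_rank {D : Dv k K} [FiniteDimensional k (LL D)] (hD : 0 ≤ D) :
    1 ≤ finrank k (LL D) := by
  have h1 : (1 : K) ∈ LL D := fun v => by
    rw [map_one, ← exp_zero, exp_le_exp]
    exact hD v
  have : Nontrivial (LL D) := ⟨⟨⟨1, h1⟩, 0, fun h => one_ne_zero (congrArg Subtype.val h)⟩⟩
  exact Module.finrank_pos

/-- An element of `LL (D + z)` outside `LL D` is bad at `z`. -/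
theorem bad_at {D : Dv k K} {z : Place k K} {x : K} (hx : x ∈ LL (D + single z 1))
    (hn : x ∉ LL D) : exp (D z) < z.val x := by
  by_contra hc
  refine hn fun v => ?_
  by_cases hv : v = z
  · subst hv
    exact not_lt.1 hc
  · have := hx v
    rwa [Finsupp.add_apply, single_eq_of_ne hv, add_zero] at this

section Core

variable (fin : ∀ D : Dv k K, FiniteDimensional k (LL D))
  (step : ∀ (D : Dv k K) (v : Place k K), finrank k (LL (D + single v 1)) ≤ finrank k (LL D) + 1)
  (hfin : ∀ h : K, (Function.support fun v : Place k K => v.ord h).Finite)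
  (hdeg : ∀ h : K, (dv k h).degree = 0)

include step in
theorem rank_add_le (D E : Dv k K) (hE : 0 ≤ E) :
    (finrank k (LL (D + E)) : ℤ) ≤ finrank k (LL D) + E.degree := by
  refine nonneg_ind (fun E => (finrank k (LL (D + E)) : ℤ) ≤ finrank k (LL D) + E.degree)
    (by rw [add_zero, map_zero, add_zero]) (fun E v _ ih => ?_) E hE
  have := step (D + E) v
  rw [← add_assoc, map_add, degree_single]
  omega

include fin hfin in
theorem rank_le_dv (D : Dv k K) {h : K} (h0 : h ≠ 0) :
    finrank k (LL D) ≤ finrank k (LL (D + dv k h)) := by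
  have hm : ∀ x ∈ LL D, LinearMap.mulRight k h⁻¹ x ∈ LL (D + dv k h) := fun x hx v => by
    rw [LinearMap.mulRight_apply, map_mul, map_inv₀, Finsupp.add_apply, dv_apply (hfin h),
      v.val_eq (v.val_ne h0), exp_add, ← exp_neg, neg_neg]
    exact mul_le_mul_left (hx v) _
  have := fin (D + dv k h)
  refine LinearMap.finrank_le_finrank_of_injective (f := (LinearMap.mulRight k h⁻¹).restrict hm)
    fun x y hxy => Subtype.ext ?_
  have := congrArg Subtype.val hxy
  exact mul_right_cancel₀ (inv_ne_zero h0) this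

include fin step hfin hdeg in
theorem key {g : ℤ} (ge : ∀ D : Dv k K, D.degree + 1 - g ≤ (finrank k (LL D) : ℤ)) {D0 : Dv k K}
    (h0 : (finrank k (LL D0) : ℤ) ≤ D0.degree + 1 - g) (D : Dv k K)
    (hD : D0.degree + g ≤ D.degree) : (finrank k (LL D) : ℤ) = D.degree + 1 - g := by
  refine le_antisymm ?_ (ge D)
  have h1 := ge (D - D0)
  rw [map_sub] at h1
  have := fin (D - D0)
  have h2 : 0 < finrank k (LL (D - D0)) := by omega
  have := Module.nontrivial_of_finrank_pos h2
  obtain ⟨⟨h, hh⟩, hne⟩ := exists_ne (0 : LL (D - D0))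
  have hz : h ≠ 0 := fun e => hne (Subtype.ext e)
  have h3 : 0 ≤ D + dv k h - D0 := fun v => by
    have := (v.val_le_exp (v.val_ne hz) _).1 (hh v)
    simp only [Finsupp.coe_zero, Pi.zero_apply, Finsupp.coe_sub, Pi.sub_apply, Finsupp.coe_add,
      Pi.add_apply, dv_apply (hfin h)] at this ⊢
    omega
  have h4 := rank_add_le step D0 _ h3
  rw [add_sub_cancel, map_sub, map_add, hdeg] at h4
  have h5 := rank_le_dv fin hfin D hz
  omega

include fin in
theorem greedy {g : ℕ} {c : ℤ}
    (big : ∀ D : Dv k K, c ≤ D.degree → (finrank k (LL D) : ℤ) = D.degree + 1 - g)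
    (zero : ∀ h ∈ LL (0 : Dv k K), h ∈ Set.range (algebraMap k K))
    (T : Set (Place k K)) (hT : T.Infinite) (m : ℕ) (hm : m ≤ g) :
    ∃ S : Finset (Place k K), (S : Set _) ⊆ T ∧ S.card = m ∧
      ∀ h ∈ LL (sm S), h ∈ Set.range (algebraMap k K) := by
  classical
  induction m with
  | zero => exact ⟨∅, by simp, rfl, by simpa [sm] using zero⟩
  | succ m ih =>
    obtain ⟨S, hS, hc, hL⟩ := ih (by omega)
    by_contra hcon
    have hz : ∀ z ∈ T, z ∉ S → ∃ x ∈ LL (sm S + single z 1), 1 < z.val x := fun z hzT hzS => by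
      by_contra hx
      refine hcon ⟨insert z S, ?_, by rw [Finset.card_insert_of_notMem hzS, hc], fun x hxL => ?_⟩
      · rw [Finset.coe_insert]
        exact Set.insert_subset hzT hS
      · rw [sm_insert hzS] at hxL
        by_contra hxc
        have := bad_at hxL fun hh => hxc (hL x hh)
        rw [sm_apply, if_neg hzS, exp_zero] at this
        exact hx ⟨x, hxL, this⟩
    have hZ : ∀ Z : Finset (Place k K), (∀ z ∈ Z, z ∈ T ∧ z ∉ S) →
        Z.card + 1 ≤ finrank k (LL (sm S + sm Z)) := fun Z => by
      induction Z using Finset.induction_on with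
      | empty =>
        intro _
        have := fin (sm S + sm ∅)
        simpa using one_le_rank (add_nonneg (sm_nonneg S) (sm_nonneg ∅))
      | insert z Z hzZ ihZ =>
        intro hh
        have h1 := ihZ fun w hw => hh w (Finset.mem_insert_of_mem hw)
        obtain ⟨hzT, hzS⟩ := hh z (Finset.mem_insert_self z Z)
        obtain ⟨x, hx, hx1⟩ := hz z hzT hzS
        have := fin (sm S + sm (insert z Z))
        have hle : sm S + sm Z ≤ sm S + sm (insert z Z) := by
          rw [sm_insert hzZ, ← add_assoc]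
          exact le_add_of_nonneg_right (single_nonneg.2 zero_le_one)
        have hle2 : sm S + single z 1 ≤ sm S + sm (insert z Z) := by
          rw [sm_insert hzZ, add_comm (sm Z), ← add_assoc]
          exact le_add_of_nonneg_right (sm_nonneg Z)
        have h2 : LL (sm S + sm Z) < LL (sm S + sm (insert z Z)) := by
          refine lt_of_le_of_ne (LL_mono hle) fun e => ?_
          have h3 : x ∈ LL (sm S + sm Z) := e ▸ LL_mono hle2 hx
          have h4 := h3 z
          rw [Finsupp.add_apply, sm_apply, sm_apply, if_neg hzS, if_neg hzZ, add_zero,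
            exp_zero] at h4
          exact absurd hx1 (not_lt.2 h4)
        have h3 := Submodule.finrank_lt_finrank_of_lt h2
        rw [Finset.card_insert_of_notMem hzZ]
        omega
    obtain ⟨Z, hZs, hZc⟩ := (hT.sdiff S.finite_toSet).exists_subset_card_eq c.toNat
    have h1 := hZ Z fun z hz' => ⟨(hZs hz').1, (hZs hz').2⟩
    have h2 := big (sm S + sm Z) (by rw [map_add, sm_degree, sm_degree, hZc]; omega)
    rw [map_add, sm_degree, sm_degree, hc] at h2
    omega

include fin step hfin hdeg in
theorem exists_genus (zero : ∀ h ∈ LL (0 : Dv k K), h ∈ Set.range (algebraMap k K))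
    [Infinite (Place k K)] {γ : ℕ}
    (hγ : ∀ D : Dv k K, D.degree + 1 - γ ≤ (finrank k (LL D) : ℤ)) : ∃ g, IsGenus k K g := by
  obtain ⟨m, ⟨D0, hD0⟩, hm⟩ := Int.exists_greatest_of_bdd
    (P := fun z => ∃ D : Dv k K, D.degree + 1 - finrank k (LL D) = z)
    ⟨γ, by rintro _ ⟨D, rfl⟩; have := hγ D; omega⟩ ⟨_, 0, rfl⟩
  have hm0 : 0 ≤ m := by
    have h1 := hm _ ⟨0, rfl⟩
    have h2 := rank_le_one zero
    rw [map_zero] at h1
    omega
  obtain ⟨g, rfl⟩ := Int.eq_ofNat_of_zero_le hm0
  have ge : ∀ D : Dv k K, D.degree + 1 - g ≤ (finrank k (LL D) : ℤ) := fun D => by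
    have := hm _ ⟨D, rfl⟩
    omega
  have big := key fin step hfin hdeg ge (D0 := D0) (by omega)
  have red := fun T hT => greedy fin big zero T hT g le_rfl
  refine ⟨g, fin, ge, fun D hD => ?_, red⟩
  obtain ⟨S, -, hc, hL⟩ := red Set.univ Set.infinite_univ
  have h1 := rank_le_one hL
  refine key fin step hfin hdeg ge (D0 := sm S) ?_ D ?_ <;> rw [sm_degree, hc] <;> omega

end Core

theorem jet (hres : ∀ v : Place k K, v.Res) {g : ℕ} (hg : IsGenus k K g) (D E : Dv k K)
    (hE : 0 ≤ E) (hd : 2 * (g : ℤ) ≤ D.degree - E.degree) (a : K)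
    (ha : ∀ v, E v ≠ 0 → v.val a ≤ exp (D v)) :
    ∃ y ∈ LL D, ∀ v, E v ≠ 0 → v.val (y - a) ≤ exp (D v - E v) := by
  revert hd ha
  refine nonneg_ind (fun E => 2 * (g : ℤ) ≤ D.degree - E.degree →
    (∀ v, E v ≠ 0 → v.val a ≤ exp (D v)) →
      ∃ y ∈ LL D, ∀ v, E v ≠ 0 → v.val (y - a) ≤ exp (D v - E v))
    (fun _ _ => ⟨0, zero_mem _, fun v hv => absurd rfl hv⟩) (fun E w hE ih hd ha => ?_) E hE
  rw [map_add, degree_single] at hd
  have hEw : (0 : ℤ) ≤ E w := hE w
  have hw : (E + single w (1 : ℤ) : Dv k K) w = E w + 1 := by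
    rw [Finsupp.add_apply, single_eq_same]
  have hv : ∀ v, v ≠ w → (E + single w (1 : ℤ) : Dv k K) v = E v := fun v h => by
    rw [Finsupp.add_apply, single_eq_of_ne h, add_zero]
  have haw : w.val a ≤ exp (D w) := ha w (by rw [hw]; omega)
  obtain ⟨y, hy, hya⟩ := ih (by omega) fun v h => by
    by_cases e : v = w
    · exact e ▸ haw
    · exact ha v (by rwa [hv v e])
  have hb : w.val (a - y) ≤ exp (D w - E w) := by
    by_cases e : E w = 0
    · rw [e, sub_zero]
      exact (w.val.map_sub _ _).trans (max_le haw (hy w))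
    · rw [Valuation.map_sub_swap]
      exact hya w e
  obtain ⟨y0, hy0, hy1⟩ : ∃ y0 ∈ LL (D - E), y0 ∉ LL (D - E - single w 1) := by
    by_contra hc
    push Not at hc
    have := hg.fin (D - E - single w 1)
    have h1 := Submodule.finrank_mono (show LL (D - E) ≤ LL (D - E - single w 1) from hc)
    have h2 := hg.eq (D - E) (by rw [map_sub]; omega)
    have h3 := hg.eq (D - E - single w 1) (by rw [map_sub, map_sub, degree_single]; omega)
    rw [map_sub _ (D - E), degree_single] at h3
    omega
  have h4 := bad_at (D := D - E - single w 1) (z := w) (by rwa [sub_add_cancel]) hy1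
  have h0 : y0 ≠ 0 := fun e => hy1 (e ▸ zero_mem _)
  have h5 : w.val y0 = exp (D w - E w) := by
    have h6 := hy0 w
    rw [w.val_eq (w.val_ne h0)] at h4 h6 ⊢
    rw [exp_lt_exp] at h4
    rw [exp_le_exp] at h6
    simp only [Finsupp.coe_sub, Pi.sub_apply, single_eq_same] at h4 h6
    congr 1
    omega
  obtain ⟨c, hc⟩ := hres w ((a - y) / y0) (by
    rw [map_div₀, h5, div_le_one₀ (zero_lt_iff.2 exp_ne_zero)]
    exact hb)
  have hle : D - E ≤ D := sub_le_self D hE
  refine ⟨y + c • y0, add_mem hy (LL_mono hle (Submodule.smul_mem _ c hy0)), fun v h => ?_⟩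
  by_cases e : v = w
  · subst e
    have h7 : y + c • y0 - a = -(((a - y) / y0 - algebraMap k K c) * y0) := by
      rw [Algebra.smul_def]
      field_simp
      ring
    rw [h7, Valuation.map_neg, map_mul, h5, hw]
    by_cases h8 : v.val ((a - y) / y0 - algebraMap k K c) = 0
    · rw [h8, zero_mul]
      exact zero_le
    · have h9 := (v.val_lt_one h8).1 hc
      rw [v.val_eq h8, ← exp_add, exp_le_exp]
      omega
  · rw [hv v e] at h ⊢
    rw [show y + c • y0 - a = (y - a) + c • y0 by ring]
    refine (v.val.map_add _ _).trans (max_le (hya v h) ?_)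
    exact Submodule.smul_mem _ c hy0 v

end Gen

end Pool.Agent.MP_cce4c9_lc.H59
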