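import Pool.Agent.MP_cce4c9_lc.H87.SpecR

/-! The elimination engine runs in polynomial time. -/

set_option autoImplicit false

open List Pool.Agent.Shared.H56 Pool.Agent.MP_cce4c9_lc.H87

namespace Pool.Agent.MP_cce4c9_lc.H59

variable {α : Type} [N487b59b3 α] {D : α → Ds} {n i γ γ' J s : α → ℕ} {P ys : α → List El}
  {eqs : α → List (List El)}

theorem dig_min (n J i : ℕ) : dig n J i = dig n J (min i (sz J + 1)) := by
  rcases le_total i (sz J + 1) with h | h
  · rw [min_eq_left h]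
  rw [min_eq_right h]
  unfold dig
  have key : ∀ k, sz J + 1 ≤ k → 2 ≤ n → J / n ^ k = 0 := fun k hk h2 =>
    Nat.div_eq_of_lt ((lt_two_pow_sz J).trans_le
      ((Nat.pow_le_pow_right (by norm_num) (by omega)).trans (Nat.pow_le_pow_left h2 k)))
  rcases n with _ | _ | n
  · rw [zero_pow (by omega), zero_pow (by omega)]
  · simp
  · rw [key _ h (by omega), key _ le_rfl (by omega)]

theorem pt_dig' (hn : PT n) (hJ : PT J) (hi : PT i) : PT fun x => dig (n x) (J x) (i x) :=
  (pt_dig hn hJ (hi.un_min (hJ.un_sz.un_add (PT.const _)))).congr fun _ => (dig_min _ _ _).symm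

theorem pt_ds (hn : PT n) (hJ : PT J) (v : ℕ) : PT fun x => ds (n x) v (J x) := by
  induction v with
  | zero => exact (PT.const 0).congr fun x => by simp [ds]
  | succ v ih =>
    exact (ih.add (pt_dig' hn hJ (PT.const v))).congr fun x => by
      simp [ds, List.range_succ]

theorem pt_un_dlt (hn : PT fun x => un (n x)) (v : ℕ) : PT fun x => un (dlt v (n x)) :=
  (PT.const (un v)).un_mul (hn.un_sub (PT.const 1))

theorem pt_un_rho (hn : PT fun x => un (n x)) (v : ℕ) : PT fun x => un (rho v (n x)) :=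
  ((PT.const (un v)).un_mul (pt_un_dlt hn v)).un_add (PT.const (un 2))

theorem pt_dlt (hn : PT n) (v : ℕ) : PT fun x => dlt v (n x) :=
  (PT.const v).mul (hn.sub (PT.const 1))

theorem pt_rho (hn : PT n) (v : ℕ) : PT fun x => rho v (n x) :=
  ((PT.const v).mul (pt_dlt hn v)).add (PT.const 2)

theorem pt_fstJ (hn : PT n) (hγ : PT γ) (v : ℕ) : PT fun x => fstJ v (n x) (γ x) := by
  refine PT.headD (PT.filter (f := fun x j => decide (dlt v (n x) < dig (rho v (n x)) (γ x) j)) ?_
    (PT.const _)) (PT.const v)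
  have h1 : PT fun p : α × ℕ => n p.1 := hn.comp PT.id'.fst
  exact (pt_dlt h1 v).decLt (pt_dig' (pt_rho h1 v) (hγ.comp PT.id'.fst) PT.id'.snd)

theorem pt_mtch (hn : PT n) (hγ : PT γ) (hγ' : PT γ') (hJ : PT J) (v : ℕ) :
    PT fun x => mtch v (n x) (γ x) (γ' x) (J x) := by
  refine PT.all (f := fun x a => dig (rho v (n x)) (γ' x) a +
    (if a = fstJ v (n x) (γ x) then dlt v (n x) + 1 else 0) ==
      dig (rho v (n x)) (γ x) a + dig (n x) (J x) a) ?_ (PT.const _)
  have h1 : PT fun p : α × ℕ => n p.1 := hn.comp PT.id'.fst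
  have h2 : PT fun p : α × ℕ => γ p.1 := hγ.comp PT.id'.fst
  have h3 : PT fun p : α × ℕ => p.2 := PT.id'.snd
  exact ((pt_dig' (pt_rho h1 v) (hγ'.comp PT.id'.fst) h3).add
    (PT.ite (h3.decEq (pt_fstJ h1 h2 v)) ((pt_dlt h1 v).add (PT.const 1)) (PT.const 0))).beq
    ((pt_dig' (pt_rho h1 v) h2 h3).add (pt_dig' h1 (hJ.comp PT.id'.fst) h3))

theorem pt_engS (hD : PT D) (hy : PT ys) (hγ : PT γ) (he : PT eqs) (hJ : PT J) :
    PT fun x => sumL (D x) ((range (eqs x).length).map fun l =>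
      mul (D x) (pw (D x) ((ys x).getD (γ x) []) l) (ent (eqs x) l (J x))) := by
  fun_prop

theorem pt_engA (hD : PT D) (hy : PT ys) (hn : PT fun x => un (n x)) (hi : PT i) (he : PT eqs)
    (hγ : PT γ) (hγ' : PT γ') (v : ℕ) :
    PT fun x => engA (D x) (ys x) v (n x) (i x) (eqs x) (γ x) (γ' x) := by
  have hn' := hn.of_un
  have hr := pt_rho hn' v
  have h0 := pt_cst hD (PT.const 0)
  have h1 := pt_cst hD (PT.const 1)
  have he' := hγ'.decEq hγ
  have hf := pt_fstJ hn' hγ v
  refine PT.ite (hr.decLe (pt_ds hr hγ v)) (PT.ite he' h1 h0) (PT.ite (hf.decEq (PT.const v))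
    (pt_sub hD (PT.ite he' (hy.getD (PT.const 0) (PT.const [])) h0)
      (PT.ite (hγ'.decEq (hγ.add (hr.pow (hi.un_min (PT.const (un v)))))) h1 h0))
    (H87.pt_add hD (PT.ite he' h1 h0) (H87.pt_mul hD (hy.getD (PT.const 1) (PT.const []))
      (pt_sumL hD (PT.map (f := fun x J => if mtch v (n x) (γ x) (γ' x) J = true then
        sumL (D x) ((range (eqs x).length).map fun l =>
          mul (D x) (pw (D x) ((ys x).getD (fstJ v (n x) (γ x) + 2) []) l) (ent (eqs x) l J))
        else cst (D x) 0) ?_ (pt_un_pow hn v).range)))))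
  have f : PT fun p : α × ℕ => p.1 := PT.id'.fst
  exact PT.ite ((pt_mtch (hn'.comp f) (hγ.comp f) (hγ'.comp f) PT.id'.snd v).decEq (PT.const true))
    (pt_engS (hD.comp f) (hy.comp f) ((hf.add (PT.const 2)).comp f) (he.comp f) PT.id'.snd)
    (h0.comp f)

theorem pt_un_dlE (hn : PT fun x => un (n x)) (hs : PT fun x => un (s x)) (v : ℕ) :
    PT fun x => un (dlE v (n x) (s x)) :=
  ((pt_un_pow (pt_un_rho hn v) v).un_mul (hs.un_add (PT.const (un 1)))).un_add (PT.const (un 1))

theorem pt_engD (hD : PT D) (hn : PT fun x => un (n x)) (he : PT eqs) (hi : PT i) (v : ℕ) :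
    PT fun x => engD (D x) v (n x) (eqs x) (i x) := by
  have hT := pt_tower hD ((pt_un_dlE hn he.un_length v).replicate (PT.const ([] : El))) (v + 2)
  have hr := pt_un_pow (pt_un_rho hn v) v
  have hk : PT fun x => (eqs x).map (map (tk (D x))) := by
    unfold tk
    fun_prop
  have f : PT fun p : α × ℕ × ℕ => p.1 := PT.id'.fst
  exact pt_det hT.fst (pt_mat hr hr (pt_engA (hT.fst.comp f) (hT.snd.comp f) (hn.comp f)
    (hi.comp f) (hk.comp f) PT.id'.snd.fst PT.id'.snd.snd v))

theorem pt_eng (hD : PT D) (hn : PT fun x => un (n x)) (he : PT eqs) (hi : PT i) (v : ℕ) :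
    PT fun x => eng (D x) v (n x) (eqs x) (i x) := by
  have h1 := pt_un_dlE hn he.un_length v
  have h2 := h1.of_un
  have h3 := pt_engD hD hn he hi v
  have f : PT fun p : (α × ℕ) × ℕ => p.1.1 := PT.id'.fst.fst
  refine PT.filter (f := fun x g => !g.all (isz (D x))) (by fun_prop)
    (PT.map (f := fun x J => (range (dlE v (n x) (eqs x).length)).map fun e =>
      chunk (D x) (engD (D x) v (n x) (eqs x) (i x)) (e + dlE v (n x) (eqs x).length * J)) ?_
      (pt_un_pow h1 (v + 1)).range)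
  refine PT.map (f := fun (p : α × ℕ) e => chunk (D p.1) (engD (D p.1) v (n p.1) (eqs p.1) (i p.1))
    (e + dlE v (n p.1) (eqs p.1).length * p.2)) ?_ (h1.range.comp PT.id'.fst)
  exact pt_chunk (hD.comp f) (h3.comp f) (PT.id'.snd.add ((h2.comp f).mul PT.id'.fst.snd))

theorem pt_dgL (hD : PT D) (hP : PT P) : PT fun x => dgL (D x) (P x) := by
  unfold dgL
  fun_prop

theorem pt_mon (hD : PT D) (hP : PT P) : PT fun x => mon (D x) (P x) := by
  have h := pt_dgL hD hP
  have f : PT fun p : α × ℕ => p.1 := PT.id'.fst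
  exact PT.map (f := fun x i => mul (D x) ((P x).getD i [])
    (qinv (D x) ((P x).getD (dgL (D x) (P x)) [])))
    (H87.pt_mul (hD.comp f) ((hP.comp f).getD PT.id'.snd (PT.const []))
      ((pt_qinv hD (hP.getD h (PT.const []))).comp f)) (h.un_min hP.un_length).range

theorem pt_solve {sy : α → List (List (List El))} (hD : PT D) (hn : PT fun x => un (n x))
    (hs : PT sy) (v : ℕ) : PT fun x => solve (D x) v (n x) (sy x) := by
  have f : PT fun p : (α × List (List El)) × ℕ => p.1.1 := PT.id'.fst.fst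
  refine pt_mon hD (pt_foldl_conv hD (PT.flatMap
    (f := fun x eqs => (range v).flatMap fun i => eng (D x) v (n x) eqs i) ?_ hs)
    ((pt_cst hD (PT.const 0)).cons ((pt_cst hD (PT.const 1)).cons (PT.const []))))
  exact PT.flatMap (f := fun (p : α × List (List El)) i => eng (D p.1) v (n p.1) p.2 i)
    (pt_eng (hD.comp f) (hn.comp f) PT.id'.fst.snd PT.id'.snd v) (PT.const _)

theorem pt2 : StmtPT2 :=
  ⟨pt_mon PT.id'.fst PT.id'.snd, fun v =>
    pt_solve PT.id'.snd.fst PT.id'.fst.un_length PT.id'.snd.snd v⟩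

end Pool.Agent.MP_cce4c9_lc.H59
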